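import Pool.Agent.TH705.RR.Fin
set_option autoImplicit false

/-!
# Tubes through the origin, and convolutions with laws of positions
-/

open MeasureTheory Set Metric
open scoped ENNReal NNReal

namespace Pool.Agent.U243.KP

open Pool.Agent.TH705.RR

/-- The number of the tubes with centres `b i` and directions `e i` through `x`. -/
noncomputable def cnt {n : ℕ} {ι : Type} [Fintype ι] (δ : ℝ) (b e : ι → E n) (x : E n) : ℝ≥0∞ :=
  ∑ i, (tube δ (b i) (e i)).indicator 1 x

theorem mem_tube_sub {n : ℕ} (δ : ℝ) (a e x : E n) : x ∈ tube δ a e ↔ x - a ∈ tube δ 0 e := by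
  unfold tube
  simp only [mem_ofPred_eq, sub_zero]

/-- Tubes through the origin: the full range. -/
theorem bush {n : ℕ} (hn : 3 ≤ n) {q : ℝ} (hq : (n : ℝ) / ((n : ℝ) - 1) < q) :
    ∃ C : ℝ, 0 < C ∧ ∀ δ : ℝ, 0 < δ → δ < 1 → ∀ (ι : Type) [Fintype ι] (e : ι → E n),
    (∀ i, ‖e i‖ = 1) → (∀ i j, i ≠ j → δ ≤ ‖e i - e j‖) →
    ∫⁻ x, cnt δ (fun _ => 0) e x ^ q ≤
      ENNReal.ofReal (C * δ ^ (n - 1) * (Fintype.card ι : ℝ) ^ (q - 1 / ((n : ℝ) - 1))) := by
  have hn1 : (2 : ℝ) ≤ (n : ℝ) - 1 := by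
    have : (3 : ℝ) ≤ n := by exact_mod_cast hn
    linarith
  have hq' : 1 + 1 / ((n : ℝ) - 1) < q := by
    have : 1 + 1 / ((n : ℝ) - 1) = (n : ℝ) / ((n : ℝ) - 1) := by
      have h0 : (n : ℝ) - 1 ≠ 0 := by linarith
      field_simp
      ring
    rw [this]
    exact hq
  obtain ⟨C, hC, H⟩ := general hn (α := (n : ℝ) - 1) (by linarith) le_rfl hq'
  refine ⟨C * (1 + 5 * 2 ^ n), by positivity, ?_⟩
  intro δ hδ hδ1 ι _ e he hsep
  let _ : MeasurableSpace (On n) := borel _
  have _ : BorelSpace (On n) := ⟨rfl⟩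
  let K : TopologicalSpace.PositiveCompacts (On n) := ⊤
  have hK : Measure.haarMeasure K Set.univ = 1 := Measure.haarMeasure_self (K₀ := K)
  have _ : IsProbabilityMeasure (Measure.haarMeasure K) := ⟨hK⟩
  have hm : ∀ v : E n, Measurable (fun k : On n => act n k v) := fun v => (act_cont v).measurable
  have hsp : Spread (Measure.haarMeasure K) (fun k => act n k) (5 * 2 ^ n) ((n : ℝ) - 1) :=
    spread_group' (by omega) _ (act n) hm (fun v w hv hw => act_trans v w hv hw)
  have h := H (5 * 2 ^ n) (by positivity) (On n) (Measure.haarMeasure K) (fun k => act n k) hm hsp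
    δ hδ hδ1 ι (fun _ => 0) e he hsep
  have h2 : ∀ k : On n, (∫⁻ x, mult δ (act n k) (fun _ => 0) e x ^ q) =
      ∫⁻ x, cnt δ (fun _ => 0) e x ^ q := by
    intro k
    apply lintegral_congr
    intro x
    unfold mult cnt
    simp only [map_zero]
  simp_rw [h2] at h
  rw [lintegral_const, hK, mul_one] at h
  exact h

end Pool.Agent.U243.KP
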