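import Pool.Agent.U243.KP.Grp
set_option autoImplicit false
set_option linter.unusedSectionVars false

/-!
# Norms, probabilities and numbers of bad pairings
-/

open MeasureTheory Set Metric
open scoped ENNReal NNReal

namespace Pool.Agent.U243.KP

open Pool.Agent.TH705.RR

theorem size_pow {n : ℕ} {ι : Type} [Fintype ι] (δ : ℝ) (b e : ι → E n) {q : ℝ} (hq : 0 < q) :
    eLpNorm (mu δ b e) (ENNReal.ofReal q) volume ^ q = ∫⁻ x, cnt δ b e x ^ q :=
  eLp_mu_pow δ (LinearIsometryEquiv.refl ℝ (E n)) b e hq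

theorem size_pow_meas {n : ℕ} {ι Ω : Type} [Fintype ι] [MeasurableSpace Ω] {X : ι → Ω → E n}
    (hX : ∀ i, Measurable (X i)) (δ : ℝ) (e : ι → E n) (q : ℝ) :
    Measurable fun ω => ∫⁻ x, cnt δ (fun i => X i ω) e x ^ q :=
  ((cnt_meas2 hX δ e).pow_const q).lintegral_prod_right'

/-- A bad value is large. -/
theorem bad_large {B η R q : ℝ} {s : ℝ≥0∞} (hB : 0 < B) (hη : 0 < η) (hR : 0 ≤ R) (hq : 0 < q)
    (h : ¬ s ≤ ENNReal.ofReal ((B / η) ^ (1 / q) * R)) :
    ENNReal.ofReal (B / η * R ^ q) ≤ s ^ q := by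
  push Not at h
  have e1 : B / η * R ^ q = ((B / η) ^ (1 / q) * R) ^ q := by
    rw [Real.mul_rpow (by positivity) hR, ← Real.rpow_mul (by positivity), one_div,
      inv_mul_cancel₀ hq.ne', Real.rpow_one]
  rw [e1, ← ENNReal.ofReal_rpow_of_nonneg (by positivity) hq.le]
  exact ENNReal.rpow_le_rpow h.le hq.le

theorem markov {Ω : Type} [MeasurableSpace Ω] {P : Measure Ω} [IsProbabilityMeasure P]
    {s : Ω → ℝ≥0∞} {q B η R : ℝ} (hs : Measurable fun ω => s ω ^ q) (hq : 0 < q) (hB : 0 < B)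
    (hη : 0 < η) (hR : 0 ≤ R) (h : ∫⁻ ω, s ω ^ q ∂P ≤ ENNReal.ofReal (B * R ^ q))
    (h0 : R = 0 → ∀ ω, s ω = 0) :
    P {ω | ¬ s ω ≤ ENNReal.ofReal ((B / η) ^ (1 / q) * R)} ≤ ENNReal.ofReal η := by
  rcases hR.eq_or_lt with hR0 | hR0
  · have : {ω | ¬ s ω ≤ ENNReal.ofReal ((B / η) ^ (1 / q) * R)} = ∅ := by
      ext ω
      simp only [mem_ofPred_eq, mem_empty_iff_false, iff_false, not_not]
      rw [h0 hR0.symm ω]
      exact zero_le
    rw [this, measure_empty]
    exact zero_le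
  · set t : ℝ := B / η * R ^ q with ht
    have ht0 : 0 < t := by positivity
    calc P {ω | ¬ s ω ≤ ENNReal.ofReal ((B / η) ^ (1 / q) * R)}
        ≤ P {ω | ENNReal.ofReal t ≤ s ω ^ q} :=
          measure_mono fun ω hω => bad_large hB hη hR hq hω
      _ ≤ (∫⁻ ω, s ω ^ q ∂P) / ENNReal.ofReal t :=
          meas_ge_le_lintegral_div hs.aemeasurable (ENNReal.ofReal_pos.2 ht0).ne'
            ENNReal.ofReal_ne_top
      _ ≤ ENNReal.ofReal (B * R ^ q) / ENNReal.ofReal t := by gcongr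
      _ = ENNReal.ofReal η := by
          rw [← ENNReal.ofReal_div_of_pos ht0]
          congr 1
          rw [ht]
          field_simp

theorem markov_count {Ω : Type} [Fintype Ω] {s : Ω → ℝ≥0∞} {q B η R : ℝ} (hq : 0 < q) (hB : 0 < B)
    (hη : 0 < η) (hR : 0 ≤ R)
    (h : ∑ ω, s ω ^ q ≤ (Fintype.card Ω : ℝ≥0∞) * ENNReal.ofReal (B * R ^ q))
    (h0 : R = 0 → ∀ ω, s ω = 0) :
    (Nat.card {ω // ¬ s ω ≤ ENNReal.ofReal ((B / η) ^ (1 / q) * R)} : ℝ) ≤ η * Fintype.card Ω := by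
  classical
  rcases hR.eq_or_lt with hR0 | hR0
  · have : IsEmpty {ω // ¬ s ω ≤ ENNReal.ofReal ((B / η) ^ (1 / q) * R)} := by
      constructor
      rintro ⟨ω, hω⟩
      apply hω
      rw [h0 hR0.symm ω]
      exact zero_le
    rw [Nat.card_of_isEmpty]
    simp only [Nat.cast_zero]
    positivity
  · set t : ℝ := B / η * R ^ q with ht
    have ht0 : 0 < t := by positivity
    set T : Finset Ω := Finset.univ.filter fun ω => ¬ s ω ≤ ENNReal.ofReal ((B / η) ^ (1 / q) * R)
      with hT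
    have e1 : Nat.card {ω // ¬ s ω ≤ ENNReal.ofReal ((B / η) ^ (1 / q) * R)} = T.card := by
      rw [Nat.card_eq_fintype_card, Fintype.card_subtype]
    rw [e1]
    have h1 : (T.card : ℝ≥0∞) * ENNReal.ofReal t ≤ ∑ ω, s ω ^ q := by
      calc (T.card : ℝ≥0∞) * ENNReal.ofReal t = ∑ _ω ∈ T, ENNReal.ofReal t := by
            rw [Finset.sum_const, nsmul_eq_mul]
        _ ≤ ∑ ω ∈ T, s ω ^ q := by
            refine Finset.sum_le_sum fun ω hω => ?_
            exact bad_large hB hη hR hq (Finset.mem_filter.1 hω).2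
        _ ≤ _ := Finset.sum_le_sum_of_subset (Finset.subset_univ _)
    have h2 := h1.trans h
    rw [← ENNReal.ofReal_natCast, ← ENNReal.ofReal_natCast, ← ENNReal.ofReal_mul (by positivity),
      ← ENNReal.ofReal_mul (by positivity), ENNReal.ofReal_le_ofReal_iff (by positivity)] at h2
    have h3 : (T.card : ℝ) * t = (T.card : ℝ) / η * (B * R ^ q) := by
      rw [ht]; field_simp
    rw [h3] at h2
    have h4 : (T.card : ℝ) / η ≤ (Fintype.card Ω : ℝ) := le_of_mul_le_mul_right h2 (by positivity)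
    rw [div_le_iff₀ hη] at h4
    linarith

theorem size_zero {n : ℕ} {ι : Type} [Fintype ι] [IsEmpty ι] (δ : ℝ) (b e : ι → E n) (p : ℝ≥0∞) :
    eLpNorm (mu δ b e) p volume = 0 := by
  have : mu δ b e = 0 := by
    funext x
    unfold mu
    exact Finset.sum_of_isEmpty _
  rw [this, eLpNorm_zero]

/-- Affine maps: the number of `(u, v)` with `u i + v = k`. -/
theorem aff1 (p : ℕ) [Fact p.Prime] [DecidableEq (ZMod p)] (i k : ZMod p) :
    num1 (fun (w : ZMod p × ZMod p) x => w.1 * x + w.2) i k ≤ p := by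
  unfold num1
  calc _ ≤ (Finset.univ : Finset (ZMod p)).card := by
        refine Finset.card_le_card_of_injOn (fun w => w.1) (fun _ _ => Finset.mem_coe.2 (Finset.mem_univ _)) ?_
        intro w hw w' hw' h
        have h1 : w.1 * i + w.2 = k := (Finset.mem_filter.1 (Finset.mem_coe.1 hw)).2
        have h2 : w'.1 * i + w'.2 = k := (Finset.mem_filter.1 (Finset.mem_coe.1 hw')).2
        have h3 : w.1 = w'.1 := h
        refine Prod.ext h3 ?_
        rw [h3] at h1
        exact add_left_cancel (h1.trans h2.symm)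
    _ = p := by rw [Finset.card_univ, ZMod.card]

theorem aff2 (p : ℕ) [Fact p.Prime] [DecidableEq (ZMod p)] {i j : ZMod p} (hij : i ≠ j) (k l : ZMod p) :
    num2 (fun (w : ZMod p × ZMod p) x => w.1 * x + w.2) i j k l ≤ 1 := by
  unfold num2
  rw [Finset.card_le_one]
  intro w hw w' hw'
  have h1 : w.1 * i + w.2 = k ∧ w.1 * j + w.2 = l := (Finset.mem_filter.1 hw).2
  have h2 : w'.1 * i + w'.2 = k ∧ w'.1 * j + w'.2 = l := (Finset.mem_filter.1 hw').2
  have h3 : (w.1 - w'.1) * (i - j) = 0 := by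
    linear_combination h1.1 - h1.2 - h2.1 + h2.2
  have h4 : w.1 = w'.1 := by
    rcases mul_eq_zero.1 h3 with h | h
    · exact sub_eq_zero.1 h
    · exact absurd (sub_eq_zero.1 h) hij
  refine Prod.ext h4 ?_
  have h5 := h1.1
  rw [h4] at h5
  exact add_left_cancel (h5.trans h2.1.symm)

end Pool.Agent.U243.KP
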