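import Pool.Agent.U243.KP.Perm
set_option autoImplicit false
set_option linter.unusedSectionVars false

/-!
# Groups of permutations that are transitive on the pairs of given classes
-/

open MeasureTheory Set Metric
open scoped ENNReal NNReal

namespace Pool.Agent.U243.KP

variable {ι κ : Type} [Fintype ι] [DecidableEq ι] [Fintype κ] [DecidableEq κ]

/-- `H` preserves the classes and is transitive on the pairs of distinct elements of given
classes. -/
def PT (c : ι → κ) (H : Subgroup (Equiv.Perm ι)) : Prop :=
  (∀ g ∈ H, ∀ i, c (g i) = c i) ∧ (∀ i k, c k = c i → ∃ g ∈ H, g i = k) ∧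
  ∀ i j k l, i ≠ j → k ≠ l → c k = c i → c l = c j → ∃ g ∈ H, g i = k ∧ g j = l

/-- The action of `H`. -/
def ac (H : Subgroup (Equiv.Perm ι)) (g : H) (i : ι) : ι := (g : Equiv.Perm ι) i

variable (H : Subgroup (Equiv.Perm ι)) [Fintype H]

theorem num1_eq {i k k' : ι} {h : Equiv.Perm ι} (hh : h ∈ H) (hk : h k = k') :
    num1 (ac H) i k = num1 (ac H) i k' := by
  unfold num1
  refine Finset.card_bij (fun g _ => (⟨h, hh⟩ : H) * g) ?_ ?_ ?_
  · intro g hg
    rw [Finset.mem_filter] at hg ⊢
    refine ⟨Finset.mem_univ _, ?_⟩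
    have := hg.2
    unfold ac at this ⊢
    rw [← hk, ← this]
    rfl
  · intro g _ g' _ hgg
    exact mul_left_cancel hgg
  · intro g hg
    refine ⟨(⟨h, hh⟩ : H)⁻¹ * g, ?_, by rw [mul_inv_cancel_left]⟩
    rw [Finset.mem_filter] at hg ⊢
    refine ⟨Finset.mem_univ _, ?_⟩
    have := hg.2
    unfold ac at this ⊢
    change h.symm ((g : Equiv.Perm ι) i) = k
    rw [this, ← hk, Equiv.symm_apply_apply]

theorem num2_eq {i j k l k' l' : ι} {h : Equiv.Perm ι} (hh : h ∈ H) (hk : h k = k')
    (hl : h l = l') : num2 (ac H) i j k l = num2 (ac H) i j k' l' := by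
  unfold num2
  refine Finset.card_bij (fun g _ => (⟨h, hh⟩ : H) * g) ?_ ?_ ?_
  · intro g hg
    rw [Finset.mem_filter] at hg ⊢
    refine ⟨Finset.mem_univ _, ?_⟩
    have := hg.2
    unfold ac at this ⊢
    rw [← hk, ← hl, ← this.1, ← this.2]
    exact ⟨rfl, rfl⟩
  · intro g _ g' _ hgg
    exact mul_left_cancel hgg
  · intro g hg
    refine ⟨(⟨h, hh⟩ : H)⁻¹ * g, ?_, by rw [mul_inv_cancel_left]⟩
    rw [Finset.mem_filter] at hg ⊢
    refine ⟨Finset.mem_univ _, ?_⟩
    have := hg.2
    unfold ac at this ⊢
    change h.symm ((g : Equiv.Perm ι) i) = k ∧ h.symm ((g : Equiv.Perm ι) j) = l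
    rw [this.1, this.2, ← hk, ← hl, Equiv.symm_apply_apply, Equiv.symm_apply_apply]
    exact ⟨rfl, rfl⟩

theorem num1_sum (i : ι) (S : Finset ι) : ∑ k ∈ S, num1 (ac H) i k ≤ Fintype.card H := by
  unfold num1
  calc _ ≤ ∑ k : ι, (Finset.univ.filter fun g : H => ac H g i = k).card :=
        Finset.sum_le_sum_of_subset (Finset.subset_univ _)
    _ = _ := by
        rw [← Finset.card_eq_sum_card_fiberwise (fun g _ => Finset.mem_univ _)]
        rfl

theorem num2_sum (i j : ι) (S : Finset (ι × ι)) :
    ∑ p ∈ S, num2 (ac H) i j p.1 p.2 ≤ Fintype.card H := by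
  unfold num2
  calc _ ≤ ∑ p : ι × ι, (Finset.univ.filter fun g : H => ac H g i = p.1 ∧ ac H g j = p.2).card :=
        Finset.sum_le_sum_of_subset (Finset.subset_univ _)
    _ = ∑ p : ι × ι, (Finset.univ.filter fun g : H => (ac H g i, ac H g j) = p).card := by
        refine Finset.sum_congr rfl fun p _ => ?_
        congr 1
        ext g
        simp only [Finset.mem_filter, Finset.mem_univ, true_and, Prod.ext_iff]
    _ = _ := by
        rw [← Finset.card_eq_sum_card_fiberwise (fun g _ => Finset.mem_univ _)]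
        rfl

theorem sz_eq (c : ι → κ) (k : κ) : sz c k = (Finset.univ.filter fun i => c i = k).card := by
  unfold sz
  exact Fintype.card_subtype _

theorem count1 {c : ι → κ} (hH : PT c H) {i k : ι} (hk : c k = c i) :
    num1 (ac H) i k * sz c (c i) ≤ Fintype.card H := by
  rw [sz_eq, mul_comm]
  refine le_trans (le_of_eq ?_) (num1_sum H i (Finset.univ.filter fun j => c j = c i))
  rw [← smul_eq_mul, ← Finset.sum_const]
  refine Finset.sum_congr rfl fun k' hk' => ?_
  have h1 : c k' = c k := by rw [(Finset.mem_filter.1 hk').2, hk]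
  obtain ⟨g, hg, hgk⟩ := hH.2.1 k k' h1
  exact num1_eq H hg hgk

theorem count2 {c : ι → κ} (hH : PT c H) {i j k l : ι} (hij : i ≠ j) (hk : c k = c i)
    (hl : c l = c j) :
    num2 (ac H) i j k l * (sz c (c i) * sz c (c j)) ≤ 2 * Fintype.card H := by
  by_cases hkl : k = l
  · -- no permutation maps `i` and `j` to the same point
    have : num2 (ac H) i j k l = 0 := by
      unfold num2
      rw [Finset.card_eq_zero, Finset.filter_eq_empty_iff]
      intro g _ hg
      apply hij
      have h1 : (g : Equiv.Perm ι) i = (g : Equiv.Perm ι) j := by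
        have h2 := hg.1
        have h3 := hg.2
        unfold ac at h2 h3
        rw [h2, h3, hkl]
      exact (g : Equiv.Perm ι).injective h1
    rw [this]; simp
  -- the target pairs
  set T : Finset (ι × ι) := Finset.univ.filter fun p => c p.1 = c i ∧ c p.2 = c j ∧ p.1 ≠ p.2 with hT
  have h1 : T.card * num2 (ac H) i j k l ≤ Fintype.card H := by
    refine le_trans (le_of_eq ?_) (num2_sum H i j T)
    rw [← smul_eq_mul, ← Finset.sum_const]
    refine Finset.sum_congr rfl fun p hp => ?_
    have hp' := (Finset.mem_filter.1 hp).2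
    obtain ⟨g, hg, hgk, hgl⟩ := hH.2.2 k l p.1 p.2 hkl hp'.2.2 (by rw [hp'.1, hk])
      (by rw [hp'.2.1, hl])
    exact num2_eq H hg hgk hgl
  have h2 : sz c (c i) * sz c (c j) ≤ 2 * T.card := by
    by_cases hc : c i = c j
    · have e1 : T = (Finset.univ.filter fun m => c m = c i).offDiag := by
        ext p
        rw [Finset.mem_offDiag, hT, Finset.mem_filter, Finset.mem_filter, Finset.mem_filter]
        simp only [Finset.mem_univ, true_and, hc]
      have e2 : 2 ≤ (Finset.univ.filter fun m => c m = c i).card := by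
        refine Finset.one_lt_card.2 ⟨i, by simp, j, by simp [hc], hij⟩
      rw [e1, Finset.offDiag_card, ← hc, sz_eq]
      set m := (Finset.univ.filter fun m => c m = c i).card with hm
      have : m * m = m * m - m + m := (Nat.sub_add_cancel (by nlinarith)).symm
      nlinarith
    · have e1 : T = (Finset.univ.filter fun m => c m = c i) ×ˢ
          (Finset.univ.filter fun m => c m = c j) := by
        ext p
        rw [Finset.mem_product, hT, Finset.mem_filter, Finset.mem_filter, Finset.mem_filter]
        simp only [Finset.mem_univ, true_and]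
        constructor
        · rintro ⟨a, b, _⟩; exact ⟨a, b⟩
        · rintro ⟨a, b⟩
          refine ⟨a, b, fun h => hc ?_⟩
          rw [← a, ← b, h]
      rw [e1, Finset.card_product, sz_eq, sz_eq]
      omega
  calc num2 (ac H) i j k l * (sz c (c i) * sz c (c j))
      ≤ num2 (ac H) i j k l * (2 * T.card) := Nat.mul_le_mul_left _ h2
    _ = 2 * (T.card * num2 (ac H) i j k l) := by ring
    _ ≤ _ := Nat.mul_le_mul_left _ h1

/-- The group of all class-preserving permutations. -/
def full (c : ι → κ) : Subgroup (Equiv.Perm ι) where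
  carrier := {g | ∀ i, c (g i) = c i}
  mul_mem' := by
    intro a b ha hb i
    change c (a (b i)) = c i
    rw [ha, hb]
  one_mem' := fun i => rfl
  inv_mem' := by
    intro a ha i
    have h := ha (a.symm i)
    rw [Equiv.apply_symm_apply] at h
    exact h.symm

theorem swap_mem {c : ι → κ} {x y : ι} (h : c x = c y) : Equiv.swap x y ∈ full c := by
  intro i
  by_cases h1 : i = x
  · rw [h1, Equiv.swap_apply_left, h]
  · by_cases h2 : i = y
    · rw [h2, Equiv.swap_apply_right, h]
    · rw [Equiv.swap_apply_of_ne_of_ne h1 h2]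

theorem full_PT (c : ι → κ) : PT c (full c) := by
  refine ⟨fun g hg i => hg i, ?_, ?_⟩
  · intro i k h
    exact ⟨Equiv.swap i k, swap_mem h.symm, Equiv.swap_apply_left _ _⟩
  · intro i j k l hij hkl h1 h2
    set s : Equiv.Perm ι := Equiv.swap i k with hs
    have hsm : s ∈ full c := swap_mem h1.symm
    have hsi : s i = k := Equiv.swap_apply_left _ _
    have hsj : s j ≠ k := by
      rw [← hsi]
      exact fun h => hij (s.injective h).symm
    have hc : c (s j) = c l := by
      have : c (s j) = c j := hsm j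
      rw [this, h2]
    refine ⟨Equiv.swap (s j) l * s, mul_mem (swap_mem hc) hsm, ?_, ?_⟩
    · change Equiv.swap (s j) l (s i) = k
      rw [hsi, Equiv.swap_apply_of_ne_of_ne hsj.symm hkl]
    · change Equiv.swap (s j) l (s j) = l
      exact Equiv.swap_apply_left _ _

end Pool.Agent.U243.KP
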