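import Pool.Agent.U243.KP.Mean
set_option autoImplicit false
set_option linter.unusedSectionVars false

/-!
# The tube inequality on average over random positions with few laws
-/

open MeasureTheory Set Metric
open scoped ENNReal NNReal

namespace Pool.Agent.U243.KP

open Pool.Agent.TH705.RR

variable {n : ℕ} {ι κ : Type} [Fintype ι] [Fintype κ] [DecidableEq κ]

theorem nu_meas (δ : ℝ) (e : E n) (ν : Measure (E n)) [SFinite ν] :
    Measurable fun x => ν (pos δ e x) :=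
  measurable_measure_prodMk_right (μ := ν) (pos_meas2 δ e)

theorem meanK_meas (δ : ℝ) (c : ι → κ) (ν : κ → Measure (E n)) [∀ k, IsProbabilityMeasure (ν k)]
    (e : ι → E n) (k : κ) : Measurable (meanK δ c ν e k) := by
  unfold meanK
  exact Finset.measurable_sum _ fun i _ => nu_meas δ (e i) (ν k)

theorem mean_meas (δ : ℝ) (c : ι → κ) (ν : κ → Measure (E n)) [∀ k, IsProbabilityMeasure (ν k)]
    (e : ι → E n) : Measurable (mean δ c ν e) := by
  unfold mean
  exact Finset.measurable_sum _ fun i _ => nu_meas δ (e i) (ν (c i))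

theorem tube0_meas (δ : ℝ) (e : E n) : MeasurableSet (tube δ (0 : E n) e) := by
  have h : tube δ (0 : E n) e = (fun x : E n => ((0, x) : E n × E n)) ⁻¹'
      {p : E n × E n | p.2 ∈ tube δ p.1 e} := rfl
  rw [h]
  exact (measurable_const.prodMk measurable_id) (pos_meas2 δ e)

theorem one_tube (δ : ℝ) (e : E n) (ν : Measure (E n)) [IsProbabilityMeasure ν] :
    ∫⁻ x, ν (pos δ e x) = volume (tube δ (0 : E n) e) := by
  have hm := measurable_one.indicator (β := ℝ≥0∞) (tube0_meas δ e)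
  have h0 : ∀ x, ν (pos δ e x) = ∫⁻ a, (tube δ 0 e).indicator (1 : E n → ℝ≥0∞) (x - a) ∂ν := by
    intro x
    have h : (fun a : E n => (tube δ 0 e).indicator (1 : E n → ℝ≥0∞) (x - a)) =
        (pos δ e x).indicator 1 := by
      funext a
      by_cases ha : x ∈ tube δ a e
      · rw [indicator_of_mem (show a ∈ pos δ e x from ha),
          indicator_of_mem ((mem_tube_sub _ _ _ _).1 ha)]
        rfl
      · rw [indicator_of_notMem (show a ∉ pos δ e x from ha),
          indicator_of_notMem (fun h => ha ((mem_tube_sub _ _ _ _).2 h))]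
    rw [h, lintegral_indicator_one (pos_meas _ _ _)]
  simp_rw [h0]
  calc ∫⁻ x, ∫⁻ a, (tube δ 0 e).indicator (1 : E n → ℝ≥0∞) (x - a) ∂ν
      = ∫⁻ a, (∫⁻ x, (tube δ 0 e).indicator (1 : E n → ℝ≥0∞) (x - a)) ∂ν :=
        lintegral_lintegral_swap
          (f := fun x a => (tube δ 0 e).indicator (1 : E n → ℝ≥0∞) (x - a))
          (hm.comp (measurable_fst.sub measurable_snd)).aemeasurable
    _ = ∫⁻ _a, (∫⁻ x, (tube δ 0 e).indicator (1 : E n → ℝ≥0∞) x) ∂ν :=
        lintegral_congr fun a =>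
          lintegral_sub_right_eq_self (fun x => (tube δ 0 e).indicator (1 : E n → ℝ≥0∞) x) a
    _ = _ := by
        rw [lintegral_const, measure_univ, mul_one, lintegral_indicator_one (tube0_meas δ e)]

/-- The volume of a tube. -/
theorem vol_tube {n : ℕ} (hn : 3 ≤ n) : ∃ C : ℝ, 0 < C ∧ ∀ δ : ℝ, 0 < δ → δ < 1 → ∀ e : E n,
    ‖e‖ = 1 → volume (tube δ (0 : E n) e) ≤ ENNReal.ofReal (C * δ ^ (n - 1)) := by
  have hn1 : (2 : ℝ) ≤ (n : ℝ) - 1 := by
    have : (3 : ℝ) ≤ n := by exact_mod_cast hn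
    linarith
  obtain ⟨C, hC, H⟩ := bush hn (q := 2) (by rw [div_lt_iff₀ (by linarith)]; linarith)
  refine ⟨C, hC, fun δ hδ hδ1 e he => ?_⟩
  have h := H δ hδ hδ1 Unit (fun _ => e) (fun _ => he) (fun i j hij => absurd rfl hij)
  rw [Fintype.card_unit, Nat.cast_one, Real.one_rpow, mul_one] at h
  refine le_trans (le_of_eq ?_) h
  rw [← lintegral_indicator_one (tube0_meas δ e)]
  refine lintegral_congr fun x => ?_
  unfold cnt
  rw [Fintype.sum_unique]
  by_cases hx : x ∈ tube δ 0 e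
  · rw [indicator_of_mem hx]; simp
  · rw [indicator_of_notMem hx]; simp

theorem mean_int {n : ℕ} (hn : 3 ≤ n) : ∃ C : ℝ, 0 < C ∧ ∀ δ : ℝ, 0 < δ → δ < 1 →
    ∀ (ι κ : Type) [Fintype ι] (c : ι → κ) (e : ι → E n), (∀ i, ‖e i‖ = 1) →
    ∀ (ν : κ → Measure (E n)) [∀ k, IsProbabilityMeasure (ν k)],
    ∫⁻ x, mean δ c ν e x ≤ ENNReal.ofReal (C * δ ^ (n - 1) * (Fintype.card ι : ℝ)) := by
  obtain ⟨C, hC, H⟩ := vol_tube hn
  refine ⟨C, hC, fun δ hδ hδ1 ι κ _ c e he ν _ => ?_⟩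
  unfold mean
  rw [lintegral_finsetSum _ fun i _ => nu_meas δ (e i) (ν (c i))]
  calc _ ≤ ∑ _i : ι, ENNReal.ofReal (C * δ ^ (n - 1)) := by
        refine Finset.sum_le_sum fun i _ => ?_
        rw [one_tube]
        exact H δ hδ hδ1 (e i) (he i)
    _ = _ := by
        rw [Finset.sum_const, Finset.card_univ, nsmul_eq_mul, mul_comm (C * δ ^ (n - 1)),
          ENNReal.ofReal_mul (p := (Fintype.card ι : ℝ)) (by positivity), ENNReal.ofReal_natCast]

theorem mean_pow {n : ℕ} (hn : 3 ≤ n) {q : ℝ} (hq : (n : ℝ) / ((n : ℝ) - 1) < q) :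
    ∃ C : ℝ, 0 < C ∧ ∀ δ : ℝ, 0 < δ → δ < 1 →
    ∀ (ι κ : Type) [Fintype ι] [Fintype κ] [DecidableEq κ] (c : ι → κ) (e : ι → E n),
    (∀ i, ‖e i‖ = 1) → (∀ i j, i ≠ j → δ ≤ ‖e i - e j‖) →
    ∀ (ν : κ → Measure (E n)) [∀ k, IsProbabilityMeasure (ν k)],
    ∫⁻ x, mean δ c ν e x ^ q ≤ ENNReal.ofReal (C * ((Fintype.card κ : ℝ) ^ (1 / ((n : ℝ) - 1)) *
      (δ ^ (n - 1) * (Fintype.card ι : ℝ) ^ (q - 1 / ((n : ℝ) - 1))))) := by
  have hn1 : (2 : ℝ) ≤ (n : ℝ) - 1 := by
    have : (3 : ℝ) ≤ n := by exact_mod_cast hn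
    linarith
  set β : ℝ := 1 / ((n : ℝ) - 1) with hβ
  have hβ0 : 0 < β := by positivity
  have hβ1 : β ≤ 1 := by
    rw [hβ, div_le_one (by linarith)]; linarith
  have hq1 : 1 < q := by
    refine lt_trans ?_ hq
    rw [lt_div_iff₀ (by linarith)]
    linarith
  obtain ⟨C, hC, H⟩ := bush hn hq
  refine ⟨C, hC, fun δ hδ hδ1 ι κ _ _ _ c e he hsep ν _ => ?_⟩
  rcases isEmpty_or_nonempty ι with hemp | hne
  · have : ∀ x, mean δ c ν e x ^ q = 0 := by
      intro x
      unfold mean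
      rw [Finset.sum_of_isEmpty, ENNReal.zero_rpow_of_pos (by linarith)]
    simp_rw [this]
    simp
  have hM : (0 : ℝ) < (Fintype.card ι : ℝ) := by exact_mod_cast Fintype.card_pos
  set M : ℝ := (Fintype.card ι : ℝ) with hMdef
  have hsz : ∀ i : ι, (0 : ℝ) < (sz c (c i) : ℝ) := fun i => by exact_mod_cast sz_pos c i
  have hsz' : ∀ i : ι, (sz c (c i) : ℝ≥0∞)⁻¹ = ENNReal.ofReal ((sz c (c i) : ℝ)⁻¹) := by
    intro i
    rw [ENNReal.ofReal_inv_of_pos (hsz i), ENNReal.ofReal_natCast]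
  -- Jensen
  have h1 : ∀ x, mean δ c ν e x ^ q ≤ ∑ i, ENNReal.ofReal (M⁻¹ * (M * (sz c (c i) : ℝ)⁻¹) ^ q) *
      meanK δ c ν e (c i) x ^ q := by
    intro x
    have e1 : mean δ c ν e x = ∑ i, ENNReal.ofReal M⁻¹ *
        (ENNReal.ofReal (M * (sz c (c i) : ℝ)⁻¹) * meanK δ c ν e (c i) x) := by
      rw [mean_eq]
      refine Finset.sum_congr rfl fun i _ => ?_
      rw [← mul_assoc, ← ENNReal.ofReal_mul (by positivity), hsz']
      congr 2
      field_simp
    rw [e1]
    have hw : ∑ _i : ι, ENNReal.ofReal M⁻¹ = 1 := by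
      rw [Finset.sum_const, Finset.card_univ, nsmul_eq_mul, ← ENNReal.ofReal_natCast,
        ← ENNReal.ofReal_mul (by positivity), ← hMdef, mul_inv_cancel₀ hM.ne', ENNReal.ofReal_one]
    refine (ENNReal.rpow_arith_mean_le_arith_mean_rpow Finset.univ (fun _ => ENNReal.ofReal M⁻¹)
      _ hw hq1.le).trans (le_of_eq ?_)
    refine Finset.sum_congr rfl fun i _ => ?_
    rw [ENNReal.mul_rpow_of_nonneg _ _ (by linarith), ← mul_assoc,
      ENNReal.ofReal_rpow_of_nonneg (by have := hsz i; positivity) (by linarith),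
      ← ENNReal.ofReal_mul (by positivity)]
  calc _ ≤ ∫⁻ x, ∑ i, ENNReal.ofReal (M⁻¹ * (M * (sz c (c i) : ℝ)⁻¹) ^ q) *
        meanK δ c ν e (c i) x ^ q := lintegral_mono h1
    _ = ∑ i, ENNReal.ofReal (M⁻¹ * (M * (sz c (c i) : ℝ)⁻¹) ^ q) *
        ∫⁻ x, meanK δ c ν e (c i) x ^ q := by
        rw [lintegral_finsetSum _ fun i _ => ((meanK_meas δ c ν e (c i)).pow_const q).const_mul _]
        refine Finset.sum_congr rfl fun i _ => ?_
        rw [lintegral_const_mul _ ((meanK_meas δ c ν e (c i)).pow_const q)]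
    _ ≤ ∑ i, ENNReal.ofReal (C * δ ^ (n - 1) * M ^ (q - 1) * (sz c (c i) : ℝ) ^ (-β)) := by
        refine Finset.sum_le_sum fun i _ => ?_
        have h2 := (meanK_pow δ c ν e (c i) hq1.le).trans
          (H δ hδ hδ1 {j // c j = c i} (fun j => e j) (fun j => he j)
            (fun j k hjk => hsep j k (fun h => hjk (Subtype.ext h))))
        refine (mul_le_mul' le_rfl h2).trans (le_of_eq ?_)
        have hs := hsz i
        rw [← ENNReal.ofReal_mul (by positivity)]
        congr 1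
        change M⁻¹ * (M * (sz c (c i) : ℝ)⁻¹) ^ q * (C * δ ^ (n - 1) *
          (sz c (c i) : ℝ) ^ (q - β)) = _
        rw [Real.mul_rpow hM.le (by positivity), Real.inv_rpow hs.le, Real.rpow_sub hM,
          Real.rpow_one, Real.rpow_sub hs, Real.rpow_neg hs.le]
        have h3 : (0 : ℝ) < (sz c (c i) : ℝ) ^ q := by positivity
        field_simp
    _ = ENNReal.ofReal (C * δ ^ (n - 1) * M ^ (q - 1) * ∑ i, (sz c (c i) : ℝ) ^ (-β)) := by
        rw [Finset.mul_sum, ENNReal.ofReal_sum_of_nonneg fun i _ => by positivity]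
    _ ≤ _ := by
        refine ENNReal.ofReal_le_ofReal ?_
        have h4 := sum_class c hβ0 hβ1
        calc C * δ ^ (n - 1) * M ^ (q - 1) * ∑ i, (sz c (c i) : ℝ) ^ (-β)
            ≤ C * δ ^ (n - 1) * M ^ (q - 1) * ((Fintype.card κ : ℝ) ^ β * M ^ (1 - β)) := by
              gcongr
          _ = _ := by
              have h5 : M ^ (q - β) = M ^ (q - 1) * M ^ (1 - β) := by
                rw [← Real.rpow_add hM]
                congr 1
                ring
              rw [h5]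
              ring

/-- **Random positions with few laws.** -/
theorem main {n : ℕ} (hn : 3 ≤ n) {q : ℝ} (hq : (n : ℝ) / ((n : ℝ) - 1) < q) :
    ∃ C : ℝ, 0 < C ∧ ∀ δ : ℝ, 0 < δ → δ < 1 →
    ∀ (ι κ : Type) [Fintype ι] [Fintype κ] [DecidableEq κ] (c : ι → κ) (e : ι → E n),
    (∀ i, ‖e i‖ = 1) → (∀ i j, i ≠ j → δ ≤ ‖e i - e j‖) →
    ∀ (ν : κ → Measure (E n)) [∀ k, IsProbabilityMeasure (ν k)]
    (Ω : Type) [MeasurableSpace Ω] (P : Measure Ω) [IsProbabilityMeasure P] (X : ι → Ω → E n),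
    (∀ i, Measurable (X i)) → ∀ A : ℝ, 1 ≤ A →
    (∀ i S, MeasurableSet S → P (X i ⁻¹' S) ≤ ENNReal.ofReal A * ν (c i) S) →
    (∀ i j, i ≠ j → ∀ S T, MeasurableSet S → MeasurableSet T →
      P (X i ⁻¹' S ∩ X j ⁻¹' T) ≤ ENNReal.ofReal A ^ 2 * (ν (c i) S * ν (c j) T)) →
    ∫⁻ ω, (∫⁻ x, cnt δ (fun i => X i ω) e x ^ q) ∂P ≤
      ENNReal.ofReal (C * A ^ 2 * ((Fintype.card κ : ℝ) ^ (1 / ((n : ℝ) - 1)) *
      (δ ^ (n - 1) * (Fintype.card ι : ℝ) ^ (q - 1 / ((n : ℝ) - 1))))) := by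
  have hn1 : (2 : ℝ) ≤ (n : ℝ) - 1 := by
    have : (3 : ℝ) ≤ n := by exact_mod_cast hn
    linarith
  set β : ℝ := 1 / ((n : ℝ) - 1) with hβ
  have hβ0 : 0 < β := by positivity
  have hβ1 : β ≤ 1 := by
    rw [hβ, div_le_one (by linarith)]; linarith
  have hb : (n : ℝ) / ((n : ℝ) - 1) = 1 + β := by
    rw [hβ]; field_simp; ring
  -- the case `q ≤ 2`
  have key : ∀ q : ℝ, (n : ℝ) / ((n : ℝ) - 1) < q → q ≤ 2 → ∃ C : ℝ, 0 < C ∧
      ∀ δ : ℝ, 0 < δ → δ < 1 →
      ∀ (ι κ : Type) [Fintype ι] [Fintype κ] [DecidableEq κ] (c : ι → κ) (e : ι → E n),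
      (∀ i, ‖e i‖ = 1) → (∀ i j, i ≠ j → δ ≤ ‖e i - e j‖) →
      ∀ (ν : κ → Measure (E n)) [∀ k, IsProbabilityMeasure (ν k)]
      (Ω : Type) [MeasurableSpace Ω] (P : Measure Ω) [IsProbabilityMeasure P] (X : ι → Ω → E n),
      (∀ i, Measurable (X i)) → ∀ A : ℝ, 1 ≤ A →
      (∀ i S, MeasurableSet S → P (X i ⁻¹' S) ≤ ENNReal.ofReal A * ν (c i) S) →
      (∀ i j, i ≠ j → ∀ S T, MeasurableSet S → MeasurableSet T →
        P (X i ⁻¹' S ∩ X j ⁻¹' T) ≤ ENNReal.ofReal A ^ 2 * (ν (c i) S * ν (c j) T)) →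
      ∫⁻ ω, (∫⁻ x, cnt δ (fun i => X i ω) e x ^ q) ∂P ≤
        ENNReal.ofReal (C * A ^ 2 * ((Fintype.card κ : ℝ) ^ β *
        (δ ^ (n - 1) * (Fintype.card ι : ℝ) ^ (q - β)))) := by
    intro q hq hq2
    have hq1 : 1 < q := by rw [hb] at hq; linarith
    have hqβ : 1 ≤ q - β := by rw [hb] at hq; linarith
    obtain ⟨C1, hC1, H1⟩ := mean_int hn
    obtain ⟨C2, hC2, H2⟩ := mean_pow hn hq
    refine ⟨C1 + C2, by positivity, ?_⟩
    intro δ hδ hδ1 ι κ _ _ _ c e he hsep ν _ Ω _ P _ X hX A hA h1 h2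
    have hA0 : 0 < A := by linarith
    set a : ℝ≥0∞ := ENNReal.ofReal A with ha
    have hmm := mean_meas δ c ν e
    calc _ = ∫⁻ x, (∫⁻ ω, cnt δ (fun i => X i ω) e x ^ q ∂P) :=
          lintegral_lintegral_swap (f := fun ω x => cnt δ (fun i => X i ω) e x ^ q)
            ((cnt_meas2 hX δ e).pow_const q).aemeasurable
      _ ≤ ∫⁻ x, (a * mean δ c ν e x + (a * mean δ c ν e x) ^ q) :=
          lintegral_mono fun x => pointwise hX δ c ν e x h1 h2 hq1.le hq2
      _ = a * (∫⁻ x, mean δ c ν e x) + a ^ q * (∫⁻ x, mean δ c ν e x ^ q) := by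
          have e4 : ∫⁻ x, (a * mean δ c ν e x) ^ q = a ^ q * ∫⁻ x, mean δ c ν e x ^ q := by
            rw [← lintegral_const_mul _ (hmm.pow_const q)]
            refine lintegral_congr fun x => ?_
            rw [ENNReal.mul_rpow_of_nonneg _ _ (by linarith)]
          rw [lintegral_add_left (hmm.const_mul a), lintegral_const_mul _ hmm, e4]
      _ ≤ a * ENNReal.ofReal (C1 * δ ^ (n - 1) * (Fintype.card ι : ℝ)) +
          a ^ q * ENNReal.ofReal (C2 * ((Fintype.card κ : ℝ) ^ β *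
            (δ ^ (n - 1) * (Fintype.card ι : ℝ) ^ (q - β)))) := by
          exact add_le_add (mul_le_mul' le_rfl (H1 δ hδ hδ1 ι κ c e he ν))
            (mul_le_mul' le_rfl (H2 δ hδ hδ1 ι κ c e he hsep ν))
      _ = ENNReal.ofReal (A * (C1 * δ ^ (n - 1) * (Fintype.card ι : ℝ)) +
          A ^ q * (C2 * ((Fintype.card κ : ℝ) ^ β *
            (δ ^ (n - 1) * (Fintype.card ι : ℝ) ^ (q - β))))) := by
          rw [ENNReal.ofReal_add (by positivity) (by positivity), ENNReal.ofReal_mul hA0.le,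
            ENNReal.ofReal_mul (p := A ^ q) (by positivity),
            ENNReal.ofReal_rpow_of_nonneg hA0.le (by linarith)]
      _ ≤ _ := by
          refine ENNReal.ofReal_le_ofReal ?_
          have hAq : A ^ q ≤ A ^ 2 := by
            rw [← Real.rpow_natCast]
            exact Real.rpow_le_rpow_of_exponent_le hA (by exact_mod_cast hq2)
          have hA2 : A ≤ A ^ 2 := by nlinarith
          have hMM : (Fintype.card ι : ℝ) ≤ (Fintype.card κ : ℝ) ^ β *
              (Fintype.card ι : ℝ) ^ (q - β) := by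
            rcases isEmpty_or_nonempty ι with hemp | ⟨⟨i0⟩⟩
            · have : (Fintype.card ι : ℝ) = 0 := by simp
              rw [this]; positivity
            · have hM1 : (1 : ℝ) ≤ (Fintype.card ι : ℝ) := by
                exact_mod_cast Fintype.card_pos_iff.2 ⟨i0⟩
              have hK1 : (1 : ℝ) ≤ (Fintype.card κ : ℝ) := by
                exact_mod_cast Fintype.card_pos_iff.2 ⟨c i0⟩
              calc (Fintype.card ι : ℝ) = 1 * (Fintype.card ι : ℝ) ^ (1 : ℝ) := by simp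
                _ ≤ _ := by
                  gcongr
                  exact Real.one_le_rpow hK1 hβ0.le
          have hT0 : 0 ≤ (Fintype.card κ : ℝ) ^ β * (δ ^ (n - 1) *
            (Fintype.card ι : ℝ) ^ (q - β)) := by positivity
          calc A * (C1 * δ ^ (n - 1) * (Fintype.card ι : ℝ)) +
                A ^ q * (C2 * ((Fintype.card κ : ℝ) ^ β *
                  (δ ^ (n - 1) * (Fintype.card ι : ℝ) ^ (q - β))))
              ≤ A ^ 2 * (C1 * δ ^ (n - 1) * ((Fintype.card κ : ℝ) ^ β *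
              (Fintype.card ι : ℝ) ^ (q - β))) +
                A ^ 2 * (C2 * ((Fintype.card κ : ℝ) ^ β *
                  (δ ^ (n - 1) * (Fintype.card ι : ℝ) ^ (q - β)))) := by
                gcongr
            _ = _ := by ring
  by_cases hq2 : q ≤ 2
  · exact key q hq hq2
  · push Not at hq2
    obtain ⟨C, hC, H⟩ := key 2 (by rw [hb]; rw [hβ]; rw [← sub_pos]; have : 1 / ((n : ℝ) - 1) ≤ 1 / 2 := one_div_le_one_div_of_le (by norm_num) hn1
                                   linarith) le_rfl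
    refine ⟨C, hC, ?_⟩
    intro δ hδ hδ1 ι κ _ _ _ c e he hsep ν _ Ω _ P _ X hX A hA h1 h2
    rcases isEmpty_or_nonempty ι with hemp | ⟨⟨i0⟩⟩
    · have : ∀ ω x, cnt δ (fun i => X i ω) e x ^ q = 0 := by
        intro ω x
        unfold cnt
        rw [Finset.sum_of_isEmpty, ENNReal.zero_rpow_of_pos (by linarith)]
      simp_rw [this]
      simp
    have hM : (0 : ℝ) < (Fintype.card ι : ℝ) := by
      exact_mod_cast Fintype.card_pos_iff.2 ⟨i0⟩
    set M : ℝ := (Fintype.card ι : ℝ) with hMdef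
    have hle : ∀ ω x, cnt δ (fun i => X i ω) e x ^ q ≤ ENNReal.ofReal (M ^ (q - 2)) *
        cnt δ (fun i => X i ω) e x ^ (2 : ℝ) := by
      intro ω x
      have h3 : cnt δ (fun i => X i ω) e x ≤ ENNReal.ofReal M := by
        rw [hMdef, ENNReal.ofReal_natCast]
        unfold cnt
        calc _ ≤ ∑ _i : ι, (1 : ℝ≥0∞) := by
              refine Finset.sum_le_sum fun i _ => ?_
              exact indicator_le_self' (fun _ _ => zero_le) x |>.trans (le_of_eq rfl)
          _ = _ := by simp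
      calc cnt δ (fun i => X i ω) e x ^ q = cnt δ (fun i => X i ω) e x ^ (q - 2) *
            cnt δ (fun i => X i ω) e x ^ (2 : ℝ) := by
            rw [← ENNReal.rpow_add_of_nonneg _ _ (by linarith) (by norm_num)]
            congr 1
            ring
        _ ≤ (ENNReal.ofReal M) ^ (q - 2) * cnt δ (fun i => X i ω) e x ^ (2 : ℝ) := by
            gcongr
        _ = _ := by rw [ENNReal.ofReal_rpow_of_nonneg hM.le (by linarith)]
    calc _ ≤ ∫⁻ ω, (∫⁻ x, ENNReal.ofReal (M ^ (q - 2)) *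
          cnt δ (fun i => X i ω) e x ^ (2 : ℝ)) ∂P :=
          lintegral_mono fun ω => lintegral_mono fun x => hle ω x
      _ = ENNReal.ofReal (M ^ (q - 2)) * ∫⁻ ω, (∫⁻ x,
          cnt δ (fun i => X i ω) e x ^ (2 : ℝ)) ∂P := by
          rw [← lintegral_const_mul' _ _ ENNReal.ofReal_ne_top]
          refine lintegral_congr fun ω => ?_
          rw [lintegral_const_mul' _ _ ENNReal.ofReal_ne_top]
      _ ≤ ENNReal.ofReal (M ^ (q - 2)) * ENNReal.ofReal (C * A ^ 2 * ((Fintype.card κ : ℝ) ^ β *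
          (δ ^ (n - 1) * M ^ (2 - β)))) := by
          gcongr
          exact H δ hδ hδ1 ι κ c e he hsep ν Ω P X hX A hA h1 h2
      _ = _ := by
          rw [← ENNReal.ofReal_mul (by positivity)]
          congr 1
          have h5 : M ^ (q - β) = M ^ (q - 2) * M ^ (2 - β) := by
            rw [← Real.rpow_add hM]
            congr 1
            ring
          rw [h5]
          ring

end Pool.Agent.U243.KP
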