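import Pool.Agent.U243.KP.Mom
set_option autoImplicit false
set_option linter.unusedSectionVars false

/-!
# The norm of the mean number of tubes through a point
-/

open MeasureTheory Set Metric
open scoped ENNReal NNReal

namespace Pool.Agent.U243.KP

open Pool.Agent.TH705.RR

theorem jen {α : Type} [MeasurableSpace α] (ν : Measure α) [IsProbabilityMeasure ν] {f : α → ℝ≥0∞}
    (hf : AEMeasurable f ν) {q : ℝ} (hq : 1 ≤ q) : (∫⁻ a, f a ∂ν) ^ q ≤ ∫⁻ a, f a ^ q ∂ν := by
  rcases eq_or_lt_of_le hq with h | h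
  · rw [← h]; simp
  · have hc := Real.HolderConjugate.conjExponent h
    have h1 := ENNReal.lintegral_mul_le_Lp_mul_Lq ν hc hf (aemeasurable_const (b := (1 : ℝ≥0∞)))
    simp only [Pi.mul_apply, mul_one, ENNReal.one_rpow, lintegral_const, measure_univ] at h1
    calc (∫⁻ a, f a ∂ν) ^ q ≤ ((∫⁻ a, f a ^ q ∂ν) ^ (1 / q)) ^ q :=
          ENNReal.rpow_le_rpow h1 (by linarith)
      _ = _ := by
          rw [← ENNReal.rpow_mul, one_div, inv_mul_cancel₀ (by linarith), ENNReal.rpow_one]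

variable {n : ℕ} {ι κ : Type} [Fintype ι] [Fintype κ] [DecidableEq κ]

/-- The size of a class. -/
def sz (c : ι → κ) (k : κ) : ℕ := Fintype.card {i // c i = k}

/-- The part of the mean coming from one class. -/
noncomputable def meanK (δ : ℝ) (c : ι → κ) (ν : κ → Measure (E n)) (e : ι → E n) (k : κ)
    (x : E n) : ℝ≥0∞ := ∑ i : {i // c i = k}, ν k (pos δ (e i) x)

theorem sum_fib {M : Type} [AddCommMonoid M] (c : ι → κ) (f : ι → M) :
    ∑ k, ∑ i : {i // c i = k}, f i = ∑ i, f i := Fintype.sum_fiberwise c f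

theorem mean_eq (δ : ℝ) (c : ι → κ) (ν : κ → Measure (E n)) (e : ι → E n) (x : E n) :
    mean δ c ν e x = ∑ i, (sz c (c i) : ℝ≥0∞)⁻¹ * meanK δ c ν e (c i) x := by
  unfold mean
  rw [← sum_fib c, ← sum_fib c]
  refine Finset.sum_congr rfl fun k _ => ?_
  have h1 : ∑ i : {i // c i = k}, ν (c i) (pos δ (e i) x) = meanK δ c ν e k x := by
    unfold meanK
    refine Finset.sum_congr rfl fun i _ => ?_
    rw [i.2]
  have h2 : ∑ i : {i // c i = k}, (sz c (c i) : ℝ≥0∞)⁻¹ * meanK δ c ν e (c i) x =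
      ∑ _i : {i // c i = k}, (sz c k : ℝ≥0∞)⁻¹ * meanK δ c ν e k x := by
    refine Finset.sum_congr rfl fun i _ => ?_
    rw [i.2]
  rw [h1, h2, Finset.sum_const, Finset.card_univ, nsmul_eq_mul, ← mul_assoc]
  change _ = (sz c k : ℝ≥0∞) * (sz c k : ℝ≥0∞)⁻¹ * meanK δ c ν e k x
  by_cases h0 : sz c k = 0
  · have h3 : IsEmpty {i // c i = k} := Fintype.card_eq_zero_iff.1 h0
    have h4 : meanK δ c ν e k x = 0 := by
      unfold meanK
      exact Finset.sum_of_isEmpty _
    rw [h4, mul_zero]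
  · rw [ENNReal.mul_inv_cancel (by exact_mod_cast h0) (ENNReal.natCast_ne_top _), one_mul]

theorem meanK_eq (δ : ℝ) (c : ι → κ) (ν : κ → Measure (E n)) (e : ι → E n) (k : κ) (x : E n) :
    meanK δ c ν e k x =
      ∫⁻ a, cnt δ (fun _ : {i // c i = k} => 0) (fun i => e i) (x - a) ∂ν k := by
  unfold meanK cnt
  have hm : ∀ i : {i // c i = k}, Measurable fun a : E n =>
      (tube δ 0 (e i)).indicator (1 : E n → ℝ≥0∞) (x - a) := by
    intro i
    have h : (fun a : E n => (tube δ 0 (e i)).indicator (1 : E n → ℝ≥0∞) (x - a)) =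
        (pos δ (e i) x).indicator 1 := by
      funext a
      by_cases ha : x ∈ tube δ a (e i)
      · rw [indicator_of_mem (show a ∈ pos δ (e i) x from ha),
          indicator_of_mem ((mem_tube_sub _ _ _ _).1 ha)]
        rfl
      · rw [indicator_of_notMem (show a ∉ pos δ (e i) x from ha),
          indicator_of_notMem (fun h => ha ((mem_tube_sub _ _ _ _).2 h))]
    rw [h]
    exact measurable_one.indicator (pos_meas _ _ _)
  rw [lintegral_finsetSum _ (fun i _ => hm i)]
  refine Finset.sum_congr rfl fun i _ => ?_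
  have h : (fun a : E n => (tube δ 0 (e i)).indicator (1 : E n → ℝ≥0∞) (x - a)) =
      (pos δ (e i) x).indicator 1 := by
    funext a
    by_cases ha : x ∈ tube δ a (e i)
    · rw [indicator_of_mem (show a ∈ pos δ (e i) x from ha),
        indicator_of_mem ((mem_tube_sub _ _ _ _).1 ha)]
      rfl
    · rw [indicator_of_notMem (show a ∉ pos δ (e i) x from ha),
        indicator_of_notMem (fun h => ha ((mem_tube_sub _ _ _ _).2 h))]
  rw [h, lintegral_indicator_one (pos_meas _ _ _)]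

theorem cnt0_meas (δ : ℝ) (c : ι → κ) (e : ι → E n) (k : κ) :
    Measurable (cnt δ (fun _ : {i // c i = k} => (0 : E n)) (fun i => e i)) := by
  unfold cnt
  refine Finset.measurable_sum _ (fun i _ => measurable_one.indicator ?_)
  have h : tube δ (0 : E n) (e i) = (fun x : E n => ((0, x) : E n × E n)) ⁻¹'
      {p : E n × E n | p.2 ∈ tube δ p.1 (e i)} := rfl
  rw [h]
  exact (measurable_const.prodMk measurable_id) (pos_meas2 δ (e i))

theorem meanK_pow (δ : ℝ) (c : ι → κ) (ν : κ → Measure (E n)) [∀ k, IsProbabilityMeasure (ν k)]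
    (e : ι → E n) (k : κ) {q : ℝ} (hq : 1 ≤ q) :
    ∫⁻ x, meanK δ c ν e k x ^ q ≤
      ∫⁻ x, cnt δ (fun _ : {i // c i = k} => (0 : E n)) (fun i => e i) x ^ q := by
  have hm := cnt0_meas δ c e k
  set B := cnt δ (fun _ : {i // c i = k} => (0 : E n)) (fun i => e i) with hB
  have h1 : ∀ x, meanK δ c ν e k x ^ q ≤ ∫⁻ a, B (x - a) ^ q ∂ν k := by
    intro x
    rw [meanK_eq]
    exact jen (ν k) (hm.comp (measurable_const.sub measurable_id)).aemeasurable hq
  calc _ ≤ ∫⁻ x, ∫⁻ a, B (x - a) ^ q ∂ν k := lintegral_mono h1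
    _ = ∫⁻ a, (∫⁻ x, B (x - a) ^ q) ∂ν k :=
        lintegral_lintegral_swap (f := fun x a => B (x - a) ^ q)
          ((hm.comp (measurable_fst.sub measurable_snd)).pow_const q).aemeasurable
    _ = ∫⁻ _a, (∫⁻ x, B x ^ q) ∂ν k :=
        lintegral_congr fun a => lintegral_sub_right_eq_self (fun x => B x ^ q) a
    _ = _ := by rw [lintegral_const, measure_univ, mul_one]

theorem sum_inv (c : ι → κ) : ∑ i, ((sz c (c i) : ℝ))⁻¹ ≤ Fintype.card κ := by
  rw [← sum_fib c]
  calc _ ≤ ∑ _k : κ, (1 : ℝ) := by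
        refine Finset.sum_le_sum fun k _ => ?_
        have h2 : ∑ i : {i // c i = k}, ((sz c (c i) : ℝ))⁻¹ = ∑ _i : {i // c i = k}, ((sz c k : ℝ))⁻¹ := by
          refine Finset.sum_congr rfl fun i _ => ?_
          rw [i.2]
        rw [h2, Finset.sum_const, Finset.card_univ, nsmul_eq_mul]
        change (sz c k : ℝ) * (sz c k : ℝ)⁻¹ ≤ 1
        exact mul_inv_le_one
    _ = _ := by simp

theorem sz_pos (c : ι → κ) (i : ι) : 0 < sz c (c i) :=
  Fintype.card_pos_iff.2 ⟨⟨i, rfl⟩⟩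

theorem sum_class (c : ι → κ) {β : ℝ} (h0 : 0 < β) (h1 : β ≤ 1) :
    ∑ i, (sz c (c i) : ℝ) ^ (-β) ≤ (Fintype.card κ : ℝ) ^ β * (Fintype.card ι : ℝ) ^ (1 - β) := by
  rcases isEmpty_or_nonempty ι with he | he
  · rw [Finset.sum_of_isEmpty]; positivity
  have hM : (0 : ℝ) < Fintype.card ι := by exact_mod_cast Fintype.card_pos
  set M : ℝ := (Fintype.card ι : ℝ) with hMdef
  have hj := Real.rpow_arith_mean_le_arith_mean_rpow Finset.univ (fun _ : ι => 1 / M)
    (fun i => (sz c (c i) : ℝ) ^ (-β)) (fun _ _ => by positivity)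
    (by rw [Finset.sum_const, Finset.card_univ, nsmul_eq_mul]; field_simp; rfl)
    (fun _ _ => by positivity) (p := 1 / β) (by rw [le_div_iff₀ h0]; linarith)
  rw [← Finset.mul_sum, ← Finset.mul_sum] at hj
  have h2 : ∀ i : ι, ((sz c (c i) : ℝ) ^ (-β)) ^ (1 / β) = ((sz c (c i) : ℝ))⁻¹ := by
    intro i
    have hp : (0 : ℝ) < sz c (c i) := by exact_mod_cast sz_pos c i
    rw [← Real.rpow_mul hp.le]
    have : -β * (1 / β) = -1 := by field_simp
    rw [this, Real.rpow_neg_one]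
  simp_rw [h2] at hj
  set S : ℝ := ∑ i, (sz c (c i) : ℝ) ^ (-β) with hS
  have hS0 : 0 ≤ S := Finset.sum_nonneg fun i _ => by positivity
  have h3 : (1 / M * S) ^ (1 / β) ≤ (Fintype.card κ : ℝ) / M := by
    refine hj.trans ?_
    rw [one_div, mul_comm, ← div_eq_mul_inv]
    exact div_le_div_of_nonneg_right (sum_inv c) hM.le
  have h4 : 1 / M * S ≤ ((Fintype.card κ : ℝ) / M) ^ β := by
    have h5 := Real.rpow_le_rpow (by positivity) h3 h0.le
    rw [← Real.rpow_mul (by positivity), one_div_mul_cancel h0.ne', Real.rpow_one] at h5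
    exact h5
  rw [Real.div_rpow (by positivity) hM.le] at h4
  have h6 : M ^ (1 - β) = M / M ^ β := by rw [Real.rpow_sub hM, Real.rpow_one]
  rw [h6]
  have hMb : 0 < M ^ β := by positivity
  calc S = M * (1 / M * S) := by field_simp
    _ ≤ M * ((Fintype.card κ : ℝ) ^ β / M ^ β) := by gcongr
    _ = _ := by ring

end Pool.Agent.U243.KP
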