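import Pool.Agent.U243.KP.Base
set_option autoImplicit false

/-!
# Moments of the number of tubes through a point, for random positions
-/

open MeasureTheory Set Metric
open scoped ENNReal NNReal

namespace Pool.Agent.U243.KP

open Pool.Agent.TH705.RR

variable {n : ℕ} {ι κ : Type} [Fintype ι]

/-- The centres of the tubes with direction `e` through `x`. -/
def pos (δ : ℝ) (e x : E n) : Set (E n) := {a | x ∈ tube δ a e}

theorem pos_meas2 (δ : ℝ) (e : E n) : MeasurableSet {p : E n × E n | p.2 ∈ tube δ p.1 e} := by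
  have m0 : Measurable (fun p : E n × E n => p.2 - p.1) := measurable_snd.sub measurable_fst
  have m1 : Measurable (fun p : E n × E n => inner ℝ (p.2 - p.1) e) := m0.inner measurable_const
  have m2 : Measurable (fun p : E n × E n => |inner ℝ (p.2 - p.1) e|) := m1.abs
  have m3 : Measurable (fun p : E n × E n =>
      ‖(p.2 - p.1) - (inner ℝ (p.2 - p.1) e) • e‖) :=
    (m0.sub (m1.smul measurable_const)).norm
  exact (measurableSet_le m2 measurable_const).inter (measurableSet_le m3 measurable_const)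

theorem pos_meas (δ : ℝ) (e x : E n) : MeasurableSet (pos δ e x) :=
  (measurable_id.prodMk measurable_const : Measurable fun a : E n => (a, x)) (pos_meas2 δ e)

/-- The mean number of tubes through `x` when the centres have the laws `ν (c i)`. -/
noncomputable def mean (δ : ℝ) (c : ι → κ) (ν : κ → Measure (E n)) (e : ι → E n) (x : E n) :
    ℝ≥0∞ := ∑ i, ν (c i) (pos δ (e i) x)

variable {Ω : Type} [MeasurableSpace Ω] {P : Measure Ω}

omit [MeasurableSpace Ω] in
theorem ind_eq (δ : ℝ) (X : Ω → E n) (e x : E n) (ω : Ω) :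
    (tube δ (X ω) e).indicator (1 : E n → ℝ≥0∞) x = (X ⁻¹' pos δ e x).indicator 1 ω := by
  by_cases h : x ∈ tube δ (X ω) e
  · rw [indicator_of_mem h, indicator_of_mem (show ω ∈ X ⁻¹' pos δ e x from h)]
    rfl
  · rw [indicator_of_notMem h, indicator_of_notMem (show ω ∉ X ⁻¹' pos δ e x from h)]

theorem ind_meas' {X : Ω → E n} (hX : Measurable X) (δ : ℝ) (e x : E n) :
    Measurable (fun ω => (tube δ (X ω) e).indicator (1 : E n → ℝ≥0∞) x) := by
  simp_rw [ind_eq]
  exact measurable_one.indicator (hX (pos_meas δ e x))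

theorem cnt_meas {X : ι → Ω → E n} (hX : ∀ i, Measurable (X i)) (δ : ℝ) (e : ι → E n) (x : E n) :
    Measurable (fun ω => cnt δ (fun i => X i ω) e x) := by
  unfold cnt
  exact Finset.measurable_sum _ (fun i _ => ind_meas' (hX i) δ (e i) x)

theorem cnt_meas2 {X : ι → Ω → E n} (hX : ∀ i, Measurable (X i)) (δ : ℝ) (e : ι → E n) :
    Measurable (fun p : Ω × E n => cnt δ (fun i => X i p.1) e p.2) := by
  unfold cnt
  refine Finset.measurable_sum _ (fun i _ => ?_)
  have h : (fun p : Ω × E n => (tube δ (X i p.1) (e i)).indicator (1 : E n → ℝ≥0∞) p.2) =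
      ((fun p : Ω × E n => ((X i p.1, p.2) : E n × E n)) ⁻¹'
        {p : E n × E n | p.2 ∈ tube δ p.1 (e i)}).indicator 1 := by
    funext p
    by_cases hp : p.2 ∈ tube δ (X i p.1) (e i)
    · rw [indicator_of_mem hp, indicator_of_mem (show p ∈ (fun p : Ω × E n =>
        ((X i p.1, p.2) : E n × E n)) ⁻¹' {p : E n × E n | p.2 ∈ tube δ p.1 (e i)} from hp)]
      rfl
    · rw [indicator_of_notMem hp, indicator_of_notMem (show p ∉ (fun p : Ω × E n =>
        ((X i p.1, p.2) : E n × E n)) ⁻¹' {p : E n × E n | p.2 ∈ tube δ p.1 (e i)} from hp)]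
  rw [h]
  exact measurable_one.indicator
    ((((hX i).comp measurable_fst).prodMk measurable_snd) (pos_meas2 δ (e i)))

theorem first {X : ι → Ω → E n} (hX : ∀ i, Measurable (X i)) (δ : ℝ) (c : ι → κ)
    (ν : κ → Measure (E n)) (e : ι → E n) (x : E n) {A : ℝ≥0∞}
    (h1 : ∀ i S, MeasurableSet S → P (X i ⁻¹' S) ≤ A * ν (c i) S) :
    ∫⁻ ω, cnt δ (fun i => X i ω) e x ∂P ≤ A * mean δ c ν e x := by
  unfold cnt mean
  rw [lintegral_finsetSum _ (fun i _ => ind_meas' (hX i) δ (e i) x), Finset.mul_sum]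
  refine Finset.sum_le_sum fun i _ => ?_
  simp_rw [ind_eq]
  rw [lintegral_indicator_one ((hX i) (pos_meas δ (e i) x))]
  exact h1 i _ (pos_meas δ (e i) x)

theorem second {X : ι → Ω → E n} (hX : ∀ i, Measurable (X i)) (δ : ℝ) (c : ι → κ)
    (ν : κ → Measure (E n)) (e : ι → E n) (x : E n) {A : ℝ≥0∞}
    (h1 : ∀ i S, MeasurableSet S → P (X i ⁻¹' S) ≤ A * ν (c i) S)
    (h2 : ∀ i j, i ≠ j → ∀ S T, MeasurableSet S → MeasurableSet T →
      P (X i ⁻¹' S ∩ X j ⁻¹' T) ≤ A ^ 2 * (ν (c i) S * ν (c j) T)) :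
    ∫⁻ ω, cnt δ (fun i => X i ω) e x ^ (2 : ℝ) ∂P ≤ A * mean δ c ν e x +
      (A * mean δ c ν e x) ^ (2 : ℝ) := by
  classical
  have e1 : ∀ ω, cnt δ (fun i => X i ω) e x ^ (2 : ℝ) =
      ∑ i, ∑ j, (X i ⁻¹' pos δ (e i) x ∩ X j ⁻¹' pos δ (e j) x).indicator (1 : Ω → ℝ≥0∞) ω := by
    intro ω
    rw [ENNReal.rpow_ofNat, sq]
    unfold cnt
    simp_rw [ind_eq]
    rw [Finset.sum_mul_sum]
    refine Finset.sum_congr rfl fun i _ => Finset.sum_congr rfl fun j _ => ?_
    rw [inter_indicator_one, Pi.mul_apply]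
  have hm : ∀ i, MeasurableSet (X i ⁻¹' pos δ (e i) x) := fun i => hX i (pos_meas δ (e i) x)
  simp_rw [e1]
  rw [lintegral_finsetSum _ (fun i _ => Finset.measurable_sum _ fun j _ =>
    measurable_one.indicator ((hm i).inter (hm j)))]
  have e2 : ∀ i, ∫⁻ ω, ∑ j, (X i ⁻¹' pos δ (e i) x ∩ X j ⁻¹' pos δ (e j) x).indicator
      (1 : Ω → ℝ≥0∞) ω ∂P ≤ A * ν (c i) (pos δ (e i) x) +
        ∑ j, A ^ 2 * (ν (c i) (pos δ (e i) x) * ν (c j) (pos δ (e j) x)) := by
    intro i
    rw [lintegral_finsetSum _ (fun j _ => measurable_one.indicator ((hm i).inter (hm j)))]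
    have e3 : ∀ j, ∫⁻ ω, (X i ⁻¹' pos δ (e i) x ∩ X j ⁻¹' pos δ (e j) x).indicator
        (1 : Ω → ℝ≥0∞) ω ∂P ≤ (if j = i then A * ν (c i) (pos δ (e i) x) else 0) +
          A ^ 2 * (ν (c i) (pos δ (e i) x) * ν (c j) (pos δ (e j) x)) := by
      intro j
      rw [lintegral_indicator_one ((hm i).inter (hm j))]
      by_cases hj : j = i
      · subst hj
        rw [if_pos rfl, inter_self]
        exact (h1 _ _ (pos_meas δ _ x)).trans le_self_add
      · rw [if_neg hj, zero_add]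
        exact h2 i j (Ne.symm hj) _ _ (pos_meas δ _ x) (pos_meas δ _ x)
    refine (Finset.sum_le_sum fun j _ => e3 j).trans ?_
    rw [Finset.sum_add_distrib, Finset.sum_ite_eq']
    simp
  refine (Finset.sum_le_sum fun i _ => e2 i).trans ?_
  rw [Finset.sum_add_distrib]
  refine add_le_add ?_ ?_
  · unfold mean
    rw [Finset.mul_sum]
  · rw [ENNReal.rpow_ofNat, mul_pow]
    unfold mean
    rw [sq (∑ i, ν (c i) (pos δ (e i) x)), Finset.sum_mul_sum, Finset.mul_sum]
    refine Finset.sum_le_sum fun i _ => ?_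
    rw [Finset.mul_sum]

theorem add_rpow_le {a b : ℝ≥0∞} {s : ℝ} (h0 : 0 ≤ s) (h1 : s ≤ 1) :
    (a + b) ^ s ≤ a ^ s + b ^ s := ENNReal.rpow_add_le_add_rpow a b h0 h1

/-- The moment of order `q`, `1 ≤ q ≤ 2`. -/
theorem pointwise {X : ι → Ω → E n} (hX : ∀ i, Measurable (X i)) (δ : ℝ) (c : ι → κ)
    (ν : κ → Measure (E n)) (e : ι → E n) (x : E n) {A : ℝ≥0∞}
    (h1 : ∀ i S, MeasurableSet S → P (X i ⁻¹' S) ≤ A * ν (c i) S)
    (h2 : ∀ i j, i ≠ j → ∀ S T, MeasurableSet S → MeasurableSet T →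
      P (X i ⁻¹' S ∩ X j ⁻¹' T) ≤ A ^ 2 * (ν (c i) S * ν (c j) T)) {q : ℝ} (hq1 : 1 ≤ q)
    (hq2 : q ≤ 2) :
    ∫⁻ ω, cnt δ (fun i => X i ω) e x ^ q ∂P ≤ A * mean δ c ν e x + (A * mean δ c ν e x) ^ q := by
  have hm := cnt_meas hX δ e x
  have e1 : ∀ ω, cnt δ (fun i => X i ω) e x ^ q = cnt δ (fun i => X i ω) e x ^ (2 - q) *
      (cnt δ (fun i => X i ω) e x ^ (2 : ℝ)) ^ (q - 1) := by
    intro ω
    rw [← ENNReal.rpow_mul, ← ENNReal.rpow_add_of_nonneg _ _ (by linarith) (by nlinarith)]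
    congr 1
    ring
  simp_rw [e1]
  have h3 := ENNReal.lintegral_mul_norm_pow_le (μ := P) (f := fun ω => cnt δ (fun i => X i ω) e x)
    (g := fun ω => cnt δ (fun i => X i ω) e x ^ (2 : ℝ)) (p := 2 - q) (q := q - 1)
    hm.aemeasurable (hm.pow_const _).aemeasurable (by linarith) (by linarith) (by ring)
  refine h3.trans ?_
  set B : ℝ≥0∞ := A * mean δ c ν e x with hB
  calc _ ≤ B ^ (2 - q) * (B + B ^ (2 : ℝ)) ^ (q - 1) := by
        refine mul_le_mul' (ENNReal.rpow_le_rpow (first hX δ c ν e x h1) (by linarith))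
          (ENNReal.rpow_le_rpow (second hX δ c ν e x h1 h2) (by linarith))
    _ ≤ B ^ (2 - q) * (B ^ (q - 1) + (B ^ (2 : ℝ)) ^ (q - 1)) := by
        gcongr
        exact add_rpow_le (by linarith) (by linarith)
    _ = B + B ^ q := by
        rw [mul_add, ← ENNReal.rpow_mul, ← ENNReal.rpow_add_of_nonneg _ _ (by linarith)
          (by linarith), ← ENNReal.rpow_add_of_nonneg _ _ (by linarith) (by nlinarith)]
        have k1 : 2 - q + (q - 1) = 1 := by ring
        have k2 : 2 - q + 2 * (q - 1) = q := by ring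
        rw [k1, k2, ENNReal.rpow_one]

end Pool.Agent.U243.KP
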