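import Pool.Agent.U243.KP.Main
set_option autoImplicit false
set_option linter.unusedSectionVars false

/-!
# Random pairings of positions and directions
-/

open MeasureTheory Set Metric
open scoped ENNReal NNReal

namespace Pool.Agent.U243.KP

open Pool.Agent.TH705.RR

variable {n : ℕ} {ι κ : Type} [Fintype ι] [Fintype κ] [DecidableEq κ]

/-- The uniform law on the positions of a class. -/
noncomputable def unif (c : ι → κ) (a : ι → E n) (k : κ) : Measure (E n) :=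
  if sz c k = 0 then Measure.dirac 0 else
    (sz c k : ℝ≥0∞)⁻¹ • ∑ i : {i // c i = k}, Measure.dirac (a i)

instance unif_prob (c : ι → κ) (a : ι → E n) (k : κ) : IsProbabilityMeasure (unif c a k) := by
  unfold unif
  split_ifs with h
  · infer_instance
  · constructor
    rw [Measure.smul_apply, Measure.coe_finsetSum, Finset.sum_apply]
    simp only [measure_univ, Finset.sum_const, Finset.card_univ, nsmul_eq_mul, mul_one, smul_eq_mul]
    exact ENNReal.inv_mul_cancel (by exact_mod_cast h) (ENNReal.natCast_ne_top _)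

theorem unif_apply (c : ι → κ) (a : ι → E n) (i : ι) {S : Set (E n)} (hS : MeasurableSet S) :
    unif c a (c i) S = (sz c (c i) : ℝ≥0∞)⁻¹ * ∑ k : {k // c k = c i}, S.indicator 1 (a k) := by
  unfold unif
  rw [if_neg (sz_pos c i).ne', Measure.smul_apply, Measure.coe_finsetSum, Finset.sum_apply,
    smul_eq_mul]
  congr 1
  refine Finset.sum_congr rfl fun k _ => ?_
  rw [Measure.dirac_apply' _ hS]

section
variable {Ω : Type} [Fintype Ω] [DecidableEq ι]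

/-- The number of `ω` with `φ ω i = k`. -/
def num1 (φ : Ω → ι → ι) (i k : ι) : ℕ := (Finset.univ.filter fun ω => φ ω i = k).card

/-- The number of `ω` with `φ ω i = k` and `φ ω j = l`. -/
def num2 (φ : Ω → ι → ι) (i j k l : ι) : ℕ :=
  (Finset.univ.filter fun ω => φ ω i = k ∧ φ ω j = l).card

theorem avg_meas_apply [Nonempty Ω] (S : Set Ω) :
    letI : MeasurableSpace Ω := ⊤
    (((Fintype.card Ω : ℝ≥0∞)⁻¹ • (Measure.count : Measure Ω)) S) =
      (Fintype.card Ω : ℝ≥0∞)⁻¹ * ∑ ω, S.indicator 1 ω := by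
  let _ : MeasurableSpace Ω := ⊤
  rw [Measure.smul_apply, smul_eq_mul, ← lintegral_indicator_one (μ := Measure.count) (s := S)
    MeasurableSpace.measurableSet_top, lintegral_count, tsum_fintype]

theorem sum1 (φ : Ω → ι → ι) (i : ι) (f : ι → ℝ≥0∞) :
    ∑ ω, f (φ ω i) = ∑ k, (num1 φ i k : ℝ≥0∞) * f k := by
  rw [← Finset.sum_fiberwise Finset.univ (fun ω => φ ω i)]
  refine Finset.sum_congr rfl fun k _ => ?_
  have : ∀ ω ∈ Finset.univ.filter (fun ω => φ ω i = k), f (φ ω i) = f k := by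
    intro ω hω
    rw [(Finset.mem_filter.1 hω).2]
  rw [Finset.sum_congr rfl this, Finset.sum_const, nsmul_eq_mul]
  rfl

theorem sum2 (φ : Ω → ι → ι) (i j : ι) (f : ι → ι → ℝ≥0∞) :
    ∑ ω, f (φ ω i) (φ ω j) = ∑ k, ∑ l, (num2 φ i j k l : ℝ≥0∞) * f k l := by
  rw [← Finset.sum_product' (f := fun k l => (num2 φ i j k l : ℝ≥0∞) * f k l),
    Finset.univ_product_univ,
    ← Finset.sum_fiberwise Finset.univ (fun ω => (φ ω i, φ ω j))]
  refine Finset.sum_congr rfl fun kl _ => ?_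
  obtain ⟨k, l⟩ := kl
  have e1 : Finset.univ.filter (fun ω => (φ ω i, φ ω j) = (k, l)) =
      Finset.univ.filter (fun ω => φ ω i = k ∧ φ ω j = l) := by
    ext ω
    simp only [Finset.mem_filter, Finset.mem_univ, true_and, Prod.mk.injEq]
  have : ∀ ω ∈ Finset.univ.filter (fun ω => (φ ω i, φ ω j) = (k, l)), f (φ ω i) (φ ω j) = f k l := by
    intro ω hω
    have h := (Finset.mem_filter.1 hω).2
    simp only [Prod.mk.injEq] at h
    rw [h.1, h.2]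
  rw [Finset.sum_congr rfl this, Finset.sum_const, nsmul_eq_mul, e1]
  rfl

theorem num1_zero (φ : Ω → ι → ι) (c : ι → κ) (hφ : ∀ ω i, c (φ ω i) = c i) {i k : ι}
    (h : c k ≠ c i) : num1 φ i k = 0 := by
  unfold num1
  rw [Finset.card_eq_zero, Finset.filter_eq_empty_iff]
  intro ω _ hω
  exact h (by rw [← hω, hφ])

theorem num2_zero (φ : Ω → ι → ι) (c : ι → κ) (hφ : ∀ ω i, c (φ ω i) = c i) {i j k l : ι}
    (h : c k ≠ c i ∨ c l ≠ c j) : num2 φ i j k l = 0 := by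
  unfold num2
  rw [Finset.card_eq_zero, Finset.filter_eq_empty_iff]
  intro ω _ hω
  rcases h with h | h
  · exact h (by rw [← hω.1, hφ])
  · exact h (by rw [← hω.2, hφ])

/-- The mean over finitely many maps. -/
theorem finite {n : ℕ} (hn : 3 ≤ n) {q : ℝ} (hq : (n : ℝ) / ((n : ℝ) - 1) < q) :
    ∃ C : ℝ, 0 < C ∧ ∀ δ : ℝ, 0 < δ → δ < 1 →
    ∀ (ι κ : Type) [Fintype ι] [Fintype κ] [DecidableEq κ] [DecidableEq ι] (c : ι → κ)
    (e : ι → E n), (∀ i, ‖e i‖ = 1) → (∀ i j, i ≠ j → δ ≤ ‖e i - e j‖) →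
    ∀ (a : ι → E n) (Ω : Type) [Fintype Ω] [Nonempty Ω] (φ : Ω → ι → ι),
    (∀ ω i, c (φ ω i) = c i) → ∀ A : ℝ≥0, 1 ≤ A →
    (∀ i k, c k = c i → (num1 φ i k * sz c (c i) : ℝ≥0) ≤ A * Fintype.card Ω) →
    (∀ i j k l, i ≠ j → c k = c i → c l = c j →
      (num2 φ i j k l * (sz c (c i) * sz c (c j)) : ℝ≥0) ≤ A ^ 2 * Fintype.card Ω) →
    ∑ ω, (∫⁻ x, cnt δ (fun i => a (φ ω i)) e x ^ q) ≤ (Fintype.card Ω : ℝ≥0∞) *
      ENNReal.ofReal (C * (A : ℝ) ^ 2 * ((Fintype.card κ : ℝ) ^ (1 / ((n : ℝ) - 1)) *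
      (δ ^ (n - 1) * (Fintype.card ι : ℝ) ^ (q - 1 / ((n : ℝ) - 1))))) := by
  obtain ⟨C, hC, H⟩ := main hn hq
  refine ⟨C, hC, ?_⟩
  intro δ hδ hδ1 ι κ _ _ _ _ c e he hsep a Ω _ _ φ hφ A hA h1 h2
  let _ : MeasurableSpace Ω := ⊤
  have hN : (Fintype.card Ω : ℝ≥0∞) ≠ 0 := by exact_mod_cast Fintype.card_ne_zero
  have hN' : (Fintype.card Ω : ℝ≥0∞) ≠ ∞ := ENNReal.natCast_ne_top _
  set P : Measure Ω := (Fintype.card Ω : ℝ≥0∞)⁻¹ • (Measure.count : Measure Ω) with hP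
  have hPp : IsProbabilityMeasure P := by
    constructor
    rw [avg_meas_apply]
    simp only [indicator_univ, Pi.one_apply, Finset.sum_const, Finset.card_univ, nsmul_eq_mul,
      mul_one]
    exact ENNReal.inv_mul_cancel hN hN'
  have hszp : ∀ i : ι, (sz c (c i) : ℝ≥0∞) ≠ 0 := fun i => by
    exact_mod_cast (sz_pos c i).ne'
  have hszt : ∀ i : ι, (sz c (c i) : ℝ≥0∞) ≠ ∞ := fun i => ENNReal.natCast_ne_top _
  have ha : ENNReal.ofReal (A : ℝ) = (A : ℝ≥0∞) := ENNReal.ofReal_coe_nnreal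
  have hx := H δ hδ hδ1 ι κ c e he hsep (unif c a) Ω P (fun i ω => a (φ ω i))
    (fun i => measurable_from_top) (A : ℝ) (by exact_mod_cast hA) ?_ ?_
  · have e1 : ∫⁻ ω, (∫⁻ x, cnt δ (fun i => a (φ ω i)) e x ^ q) ∂P =
        (Fintype.card Ω : ℝ≥0∞)⁻¹ * ∑ ω, (∫⁻ x, cnt δ (fun i => a (φ ω i)) e x ^ q) := by
      rw [hP, lintegral_smul_measure, lintegral_count, tsum_fintype, smul_eq_mul]
    rw [e1] at hx
    calc ∑ ω, (∫⁻ x, cnt δ (fun i => a (φ ω i)) e x ^ q)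
        = (Fintype.card Ω : ℝ≥0∞) * ((Fintype.card Ω : ℝ≥0∞)⁻¹ *
          ∑ ω, (∫⁻ x, cnt δ (fun i => a (φ ω i)) e x ^ q)) := by
          rw [← mul_assoc, ENNReal.mul_inv_cancel hN hN', one_mul]
      _ ≤ _ := mul_le_mul' le_rfl hx
  · intro i S hS
    rw [hP, avg_meas_apply, unif_apply c a i hS, ha]
    have e2 : ∑ ω, ((fun ω => a (φ ω i)) ⁻¹' S).indicator (1 : Ω → ℝ≥0∞) ω =
        ∑ k : {k // c k = c i}, (num1 φ i k : ℝ≥0∞) * S.indicator 1 (a k) := by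
      have e3 : ∑ ω, ((fun ω => a (φ ω i)) ⁻¹' S).indicator (1 : Ω → ℝ≥0∞) ω =
          ∑ ω, (fun k => S.indicator (1 : E n → ℝ≥0∞) (a k)) (φ ω i) := rfl
      rw [e3]
      refine (sum1 φ i (fun k => S.indicator (1 : E n → ℝ≥0∞) (a k))).trans ?_
      rw [← sum_fib c, Finset.sum_eq_single (c i)]
      · intro k _ hk
        refine Finset.sum_eq_zero fun l _ => ?_
        rw [num1_zero φ c hφ (by rw [l.2]; exact hk)]
        simp
      · intro h; exact absurd (Finset.mem_univ _) h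
    rw [e2, Finset.mul_sum, Finset.mul_sum, Finset.mul_sum]
    refine Finset.sum_le_sum fun k _ => ?_
    rw [← mul_assoc, ← mul_assoc]
    refine mul_le_mul' ?_ le_rfl
    have h3 := h1 i k k.2
    have h4 : (num1 φ i k : ℝ≥0∞) * (sz c (c i) : ℝ≥0∞) ≤ (A : ℝ≥0∞) * (Fintype.card Ω : ℝ≥0∞) := by
      exact_mod_cast h3
    calc (Fintype.card Ω : ℝ≥0∞)⁻¹ * (num1 φ i k : ℝ≥0∞)
        = (Fintype.card Ω : ℝ≥0∞)⁻¹ * (((num1 φ i k : ℝ≥0∞) * (sz c (c i) : ℝ≥0∞)) *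
          (sz c (c i) : ℝ≥0∞)⁻¹) := by
          rw [mul_assoc (num1 φ i k : ℝ≥0∞), ENNReal.mul_inv_cancel (hszp i) (hszt i), mul_one]
      _ ≤ (Fintype.card Ω : ℝ≥0∞)⁻¹ * (((A : ℝ≥0∞) * (Fintype.card Ω : ℝ≥0∞)) *
          (sz c (c i) : ℝ≥0∞)⁻¹) := by gcongr
      _ = ((Fintype.card Ω : ℝ≥0∞)⁻¹ * (Fintype.card Ω : ℝ≥0∞)) * ((A : ℝ≥0∞) *
          (sz c (c i) : ℝ≥0∞)⁻¹) := by ring
      _ = _ := by rw [ENNReal.inv_mul_cancel hN hN', one_mul]
  · intro i j hij S T hS hT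
    rw [hP, avg_meas_apply, unif_apply c a i hS, unif_apply c a j hT, ha]
    have e2 : ∑ ω, ((fun ω => a (φ ω i)) ⁻¹' S ∩ (fun ω => a (φ ω j)) ⁻¹' T).indicator
        (1 : Ω → ℝ≥0∞) ω = ∑ k : {k // c k = c i}, ∑ l : {l // c l = c j},
          (num2 φ i j k l : ℝ≥0∞) * (S.indicator 1 (a k) * T.indicator 1 (a l)) := by
      have e3 : ∑ ω, ((fun ω => a (φ ω i)) ⁻¹' S ∩ (fun ω => a (φ ω j)) ⁻¹' T).indicator
          (1 : Ω → ℝ≥0∞) ω = ∑ ω, (fun k l => S.indicator (1 : E n → ℝ≥0∞) (a k) *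
            T.indicator (1 : E n → ℝ≥0∞) (a l)) (φ ω i) (φ ω j) := by
        refine Finset.sum_congr rfl fun ω _ => ?_
        rw [inter_indicator_one, Pi.mul_apply]
        rfl
      rw [e3]
      refine (sum2 φ i j (fun k l => S.indicator (1 : E n → ℝ≥0∞) (a k) *
            T.indicator (1 : E n → ℝ≥0∞) (a l))).trans ?_
      rw [← sum_fib c, Finset.sum_eq_single (c i)]
      · refine Finset.sum_congr rfl fun k _ => ?_
        rw [← sum_fib c, Finset.sum_eq_single (c j)]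
        · intro m _ hm
          refine Finset.sum_eq_zero fun l _ => ?_
          rw [num2_zero φ c hφ (Or.inr (by rw [l.2]; exact hm))]
          simp
        · intro h; exact absurd (Finset.mem_univ _) h
      · intro k _ hk
        refine Finset.sum_eq_zero fun l _ => ?_
        refine Finset.sum_eq_zero fun m _ => ?_
        rw [num2_zero φ c hφ (Or.inl (by rw [l.2]; exact hk))]
        simp
      · intro h; exact absurd (Finset.mem_univ _) h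
    have e4 : (sz c (c i) : ℝ≥0∞)⁻¹ * (∑ k : {k // c k = c i}, S.indicator 1 (a k)) *
        ((sz c (c j) : ℝ≥0∞)⁻¹ * ∑ l : {l // c l = c j}, T.indicator 1 (a l)) =
        ∑ k : {k // c k = c i}, ∑ l : {l // c l = c j}, ((sz c (c i) : ℝ≥0∞)⁻¹ *
          (sz c (c j) : ℝ≥0∞)⁻¹) * (S.indicator 1 (a k) * T.indicator 1 (a l)) := by
      calc _ = ((sz c (c i) : ℝ≥0∞)⁻¹ * (sz c (c j) : ℝ≥0∞)⁻¹) *
            ((∑ k : {k // c k = c i}, S.indicator 1 (a k)) *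
              ∑ l : {l // c l = c j}, T.indicator 1 (a l)) := by ring
        _ = _ := by
            rw [Finset.sum_mul_sum, Finset.mul_sum]
            refine Finset.sum_congr rfl fun k _ => ?_
            rw [Finset.mul_sum]
    rw [e2, e4, Finset.mul_sum, Finset.mul_sum]
    refine Finset.sum_le_sum fun k _ => ?_
    rw [Finset.mul_sum, Finset.mul_sum]
    refine Finset.sum_le_sum fun l _ => ?_
    refine le_trans (le_of_eq (by ring : _ = ((Fintype.card Ω : ℝ≥0∞)⁻¹ *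
      (num2 φ i j k l : ℝ≥0∞)) * (S.indicator 1 (a k) * T.indicator 1 (a l))))
      (le_trans (mul_le_mul' ?_ le_rfl) (le_of_eq (by ring :
        ((A : ℝ≥0∞) ^ 2 * ((sz c (c i) : ℝ≥0∞)⁻¹ * (sz c (c j) : ℝ≥0∞)⁻¹)) *
        (S.indicator 1 (a k) * T.indicator 1 (a l)) = _)))
    have h3 := h2 i j k l hij k.2 l.2
    have h4 : (num2 φ i j k l : ℝ≥0∞) * ((sz c (c i) : ℝ≥0∞) * (sz c (c j) : ℝ≥0∞)) ≤
        (A : ℝ≥0∞) ^ 2 * (Fintype.card Ω : ℝ≥0∞) := by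
      exact_mod_cast h3
    calc (Fintype.card Ω : ℝ≥0∞)⁻¹ * (num2 φ i j k l : ℝ≥0∞)
        = (Fintype.card Ω : ℝ≥0∞)⁻¹ * (((num2 φ i j k l : ℝ≥0∞) *
          ((sz c (c i) : ℝ≥0∞) * (sz c (c j) : ℝ≥0∞))) *
          ((sz c (c i) : ℝ≥0∞)⁻¹ * (sz c (c j) : ℝ≥0∞)⁻¹)) := by
          have e5 : ((sz c (c i) : ℝ≥0∞) * (sz c (c j) : ℝ≥0∞)) *
              ((sz c (c i) : ℝ≥0∞)⁻¹ * (sz c (c j) : ℝ≥0∞)⁻¹) = 1 := by
            calc _ = ((sz c (c i) : ℝ≥0∞) * (sz c (c i) : ℝ≥0∞)⁻¹) *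
                  ((sz c (c j) : ℝ≥0∞) * (sz c (c j) : ℝ≥0∞)⁻¹) := by ring
              _ = 1 := by
                rw [ENNReal.mul_inv_cancel (hszp i) (hszt i),
                  ENNReal.mul_inv_cancel (hszp j) (hszt j), one_mul]
          rw [mul_assoc (num2 φ i j k l : ℝ≥0∞), e5, mul_one]
      _ ≤ (Fintype.card Ω : ℝ≥0∞)⁻¹ * (((A : ℝ≥0∞) ^ 2 * (Fintype.card Ω : ℝ≥0∞)) *
          ((sz c (c i) : ℝ≥0∞)⁻¹ * (sz c (c j) : ℝ≥0∞)⁻¹)) := by gcongr
      _ = ((Fintype.card Ω : ℝ≥0∞)⁻¹ * (Fintype.card Ω : ℝ≥0∞)) * ((A : ℝ≥0∞) ^ 2 *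
          ((sz c (c i) : ℝ≥0∞)⁻¹ * (sz c (c j) : ℝ≥0∞)⁻¹)) := by ring
      _ = _ := by rw [ENNReal.inv_mul_cancel hN hN', one_mul]

end

end Pool.Agent.U243.KP
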